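import Pool.Agent.Helper16.SD.GoalsE

/-!
Packet SD-B_EPS: the elements `e` and `f` of the group ring.
-/

set_option autoImplicit false

noncomputable section

namespace Pool.Agent.Helper76.SD.B_EPS

open Polynomial
open Pool.Agent.Helper16.SD

/-- extension of a conjugation of algebraic elements to an algebraically closed field -/
theorem ext_conj (K Ω : Type) [Field K] [Field Ω] [Algebra K Ω] [IsAlgClosed Ω] (x y : Ω)
    (hx : IsAlgebraic K x) (hy : aeval y (minpoly K x) = 0) :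
    ∃ σ : Ω ≃ₐ[K] Ω, σ x = y := by
  let A := algebraicClosure K Ω
  have hyA : IsAlgebraic K y := ⟨minpoly K x, minpoly.ne_zero hx.isIntegral, hy⟩
  have hA : IsAlgClosure K A := inferInstance
  have hN : Normal K A := inferInstance
  let x' : A := ⟨x, (mem_algebraicClosure_iff).2 hx⟩
  let y' : A := ⟨y, (mem_algebraicClosure_iff).2 hyA⟩
  have hx' : IsAlgebraic K x' := Algebra.IsAlgebraic.isAlgebraic x'
  have hmin : minpoly K x' = minpoly K x :=
    (minpoly.algebraMap_eq (algebraMap A Ω).injective x').symm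
  have hy' : aeval y' (minpoly K x') = 0 := by
    apply (algebraMap A Ω).injective
    rw [map_zero, ← aeval_algebraMap_apply, hmin]
    exact hy
  obtain ⟨τ, hτ⟩ := minpoly.exists_algEquiv_of_root' hx' hy'
  obtain ⟨s, hs⟩ := exists_isTranscendenceBasis A Ω
  have hcl : IsAlgClosure (Algebra.adjoin A (Set.range ((↑) : s → Ω))) Ω :=
    IsAlgClosed.isAlgClosure_of_transcendence_basis _ hs
  let e : Algebra.adjoin A (Set.range ((↑) : s → Ω)) ≃+* Algebra.adjoin A (Set.range ((↑) : s → Ω)) :=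
    hs.1.aevalEquiv.symm.toRingEquiv.trans
      ((MvPolynomial.mapEquiv s τ.toRingEquiv).trans hs.1.aevalEquiv.toRingEquiv)
  have he : ∀ a : A, e (algebraMap A _ a) = algebraMap A _ (τ a) := by
    intro a
    have h1 : hs.1.aevalEquiv.symm (algebraMap A _ a) = algebraMap A _ a :=
      hs.1.aevalEquiv.symm.commutes a
    have h2 : hs.1.aevalEquiv (algebraMap A _ (τ a)) = algebraMap A _ (τ a) :=
      hs.1.aevalEquiv.commutes (τ a)
    change hs.1.aevalEquiv (MvPolynomial.mapEquiv s τ.toRingEquiv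
      (hs.1.aevalEquiv.symm (algebraMap A _ a))) = _
    rw [h1, ← h2]
    congr 1
    rw [MvPolynomial.algebraMap_eq]
    simp
  let σ0 := IsAlgClosure.equivOfEquiv Ω Ω e
  have hσ : ∀ a : A, σ0 (a : Ω) = (τ a : Ω) := by
    intro a
    have := IsAlgClosure.equivOfEquiv_algebraMap Ω Ω e (algebraMap A _ a)
    rw [he] at this
    exact this
  refine ⟨AlgEquiv.ofRingEquiv (f := σ0) ?_, ?_⟩
  · intro c
    have := hσ (algebraMap K A c)
    rw [τ.commutes] at this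
    exact this
  · have := hσ x'
    rw [hτ] at this
    exact this

/-- the idempotent polynomial of a root of unity -/
theorem idem (R K L : Type) [CommRing R] [IsDomain R] [IsIntegrallyClosed R] [Field K] [Field L]
    [Algebra R K] [IsFractionRing R K] [Algebra K L] (i : R →+* L)
    (hi : i = (algebraMap K L).comp (algebraMap R K)) (m : ℕ) (hm0 : 0 < m) (hm : IsUnit (m : R))
    (ζ : L) (hζ : ζ ^ m = 1) :
    ∃ E : R[X], eval₂ i ζ E = 1 ∧
      ∀ z : L, z ^ m = 1 → eval₂ i z E ≠ 0 → aeval z (minpoly K ζ) = 0 := by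
  let alg : Algebra R L := i.toAlgebra
  have hal : algebraMap R L = i := rfl
  have htw : IsScalarTower R K L := IsScalarTower.of_algebraMap_eq' (by rw [hal, hi])
  have hinj : Function.Injective (algebraMap R L) := by
    rw [hal, hi]
    exact (algebraMap K L).injective.comp (IsFractionRing.injective R K)
  have htf : Module.IsTorsionFree R L := Module.isTorsionFree_iff_algebraMap_injective.2 hinj
  have hint : IsIntegral R ζ := by
    refine ⟨X ^ m - 1, monic_X_pow_sub_C 1 hm0.ne', ?_⟩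
    rw [eval₂_sub, eval₂_pow, eval₂_X, eval₂_one, hζ, sub_self]
  have hdvd : minpoly R ζ ∣ X ^ m - 1 := by
    apply minpoly.isIntegrallyClosed_dvd hint
    rw [map_sub, map_pow, aeval_X, map_one, hζ, sub_self]
  obtain ⟨Q, hQ⟩ := hdvd
  obtain ⟨u, hu⟩ := hm.exists_left_inv
  have hder := congrArg (fun F => eval₂ i ζ (derivative F)) hQ
  have hP : ∀ (z : L) (F : R[X]), eval₂ i z F = aeval z F := fun z F => rfl
  have hmin : minpoly K ζ = (minpoly R ζ).map (algebraMap R K) :=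
    minpoly.isIntegrallyClosed_eq_field_fractions' K hint
  refine ⟨C u * X * derivative (minpoly R ζ) * Q, ?_, ?_⟩
  · simp only [derivative_sub, derivative_X_pow, derivative_one, sub_zero, derivative_mul,
      eval₂_add, eval₂_mul, eval₂_C, eval₂_pow, eval₂_X, map_natCast, eval₂_natCast] at hder ⊢
    rw [hP ζ (minpoly R ζ), minpoly.aeval, zero_mul, add_zero] at hder
    have h1 : i u * (m : L) = 1 := by
      rw [← map_natCast i m, ← map_mul, hu, map_one]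
    have h2 : ζ * ζ ^ (m - 1) = 1 := by
      rw [← pow_succ', Nat.sub_add_cancel hm0, hζ]
    calc i u * ζ * eval₂ i ζ (derivative (minpoly R ζ)) * eval₂ i ζ Q
        = i u * ζ * (eval₂ i ζ (derivative (minpoly R ζ)) * eval₂ i ζ Q) := by
          ring
      _ = (i u * (m : L)) * (ζ * ζ ^ (m - 1)) := by rw [← hder]; ring
      _ = 1 := by rw [h1, h2, one_mul]
  · intro z hz hne
    have h1 := congrArg (fun F => eval₂ i z F) hQ
    simp only [eval₂_sub, eval₂_pow, eval₂_X, eval₂_one, eval₂_mul, hz, sub_self] at h1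
    have h2 : eval₂ i z Q ≠ 0 := by
      intro h
      apply hne
      rw [eval₂_mul, h, mul_zero]
    have h3 := (mul_eq_zero.1 h1.symm).resolve_right h2
    rw [hmin, aeval_map_algebraMap]
    exact h3

variable {p : ℕ} [Fact p.Prime]

/-- the functions of a character given by elements of the group ring -/
def RS (p : ℕ) [Fact p.Prime] (G : Type) [CommGroup G] [Fintype G] :
    Subring ((G →* ℂ_[p]ˣ) → ℂ_[p]) where
  carrier := {Φ | ∃ e : G → ℤ_[p], ∀ ψ : G →* ℂ_[p]ˣ,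
    Φ ψ = ∑ g, zp p (e g) * ((ψ g : ℂ_[p]ˣ) : ℂ_[p])}
  mul_mem' := by
    rintro Φ Φ' ⟨e, he⟩ ⟨e', he'⟩
    refine ⟨fun g => ∑ h, e h * e' (h⁻¹ * g), fun ψ => ?_⟩
    rw [Pi.mul_apply, he, he', Finset.sum_mul_sum]
    simp only [map_sum, Finset.sum_mul]
    rw [Finset.sum_comm (s := Finset.univ) (t := Finset.univ) (f := fun g h =>
      zp p (e h * e' (h⁻¹ * g)) * ((ψ g : ℂ_[p]ˣ) : ℂ_[p]))]
    apply Finset.sum_congr rfl
    intro h _
    rw [← Equiv.sum_comp (Equiv.mulLeft h) (fun g =>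
      zp p (e h * e' (h⁻¹ * g)) * ((ψ g : ℂ_[p]ˣ) : ℂ_[p]))]
    apply Finset.sum_congr rfl
    intro g _
    change zp p (e h) * ((ψ h : ℂ_[p]ˣ) : ℂ_[p]) * (zp p (e' g) * ((ψ g : ℂ_[p]ˣ) : ℂ_[p])) =
      zp p (e h * e' (h⁻¹ * (h * g))) * ((ψ (h * g) : ℂ_[p]ˣ) : ℂ_[p])
    rw [inv_mul_cancel_left, map_mul, map_mul, Units.val_mul]
    ring
  one_mem' := by
    classical
    refine ⟨fun g => if g = 1 then 1 else 0, fun ψ => ?_⟩
    rw [Finset.sum_eq_single 1]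
    · simp
    · intro g _ hg
      simp only [if_neg hg, map_zero, zero_mul]
    · intro h
      exact absurd (Finset.mem_univ _) h
  add_mem' := by
    rintro Φ Φ' ⟨e, he⟩ ⟨e', he'⟩
    refine ⟨fun g => e g + e' g, fun ψ => ?_⟩
    rw [Pi.add_apply, he, he', ← Finset.sum_add_distrib]
    apply Finset.sum_congr rfl
    intro g _
    rw [map_add, add_mul]
  zero_mem' := ⟨fun _ => 0, fun ψ => by simp⟩
  neg_mem' := by
    rintro Φ ⟨e, he⟩
    refine ⟨fun g => - e g, fun ψ => ?_⟩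
    rw [Pi.neg_apply, he, ← Finset.sum_neg_distrib]
    apply Finset.sum_congr rfl
    intro g _
    rw [map_neg, neg_mul]

section
variable {G : Type} [CommGroup G] [Fintype G]

/-- evaluation at `g` -/
def ev (p : ℕ) [Fact p.Prime] (g : G) : (G →* ℂ_[p]ˣ) → ℂ_[p] := fun ψ => ((ψ g : ℂ_[p]ˣ) : ℂ_[p])

theorem ev_mem (g : G) : ev p g ∈ RS p G := by
  classical
  refine ⟨fun h => if h = g then 1 else 0, fun ψ => ?_⟩
  rw [Finset.sum_eq_single g]
  · simp [ev]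
  · intro h _ hg
    simp only [if_neg hg, map_zero, zero_mul]
  · intro h
    exact absurd (Finset.mem_univ _) h

theorem const_mem (c : ℤ_[p]) : (fun _ => zp p c : (G →* ℂ_[p]ˣ) → ℂ_[p]) ∈ RS p G := by
  classical
  refine ⟨fun h => if h = 1 then c else 0, fun ψ => ?_⟩
  rw [Finset.sum_eq_single 1]
  · simp
  · intro h _ hg
    simp only [if_neg hg, map_zero, zero_mul]
  · intro h
    exact absurd (Finset.mem_univ _) h

theorem poly_mem (g : G) (E : ℤ_[p][X]) :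
    (fun ψ => eval₂ (zp p) (ev p g ψ) E : (G →* ℂ_[p]ˣ) → ℂ_[p]) ∈ RS p G := by
  have h : (fun ψ => eval₂ (zp p) (ev p g ψ) E : (G →* ℂ_[p]ˣ) → ℂ_[p]) =
      ∑ n ∈ E.support, (fun _ => zp p (E.coeff n)) * (ev p g) ^ n := by
    funext ψ
    rw [Finset.sum_apply, eval₂_eq_sum, Polynomial.sum_def]
    rfl
  rw [h]
  exact Subring.sum_mem _ fun n _ => Subring.mul_mem _ (const_mem _) (Subring.pow_mem _ (ev_mem g) n)

/-- the part of order prime to `p` -/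
theorem sig0 (ν : G →* ℂ_[p]ˣ) (m : ℕ) (hm0 : 0 < m)
    (E : G → ℤ_[p][X])
    (hE : ∀ g, g ^ m = 1 → ∀ z : ℂ_[p], z ^ m = 1 → eval₂ (zp p) z (E g) ≠ 0 →
      aeval z (minpoly ℚ_[p] (ev p g ν)) = 0)
    (ψ : G →* ℂ_[p]ˣ) (hψ : ∀ g, g ^ m = 1 → eval₂ (zp p) (ev p g ψ) (E g) ≠ 0) :
    ∃ σ : ℂ_[p] ≃ₐ[ℚ_[p]] ℂ_[p], ∀ g, g ^ m = 1 → σ (ev p g ν) = ev p g ψ := by
  have hpow : ∀ (φ : G →* ℂ_[p]ˣ) (g : G), g ^ m = 1 → (ev p g φ) ^ m = 1 := by
    intro φ g hg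
    rw [ev, ← Units.val_pow_eq_pow_val, ← map_pow, hg, map_one, Units.val_one]
  have hkey : ∀ g, g ^ m = 1 → aeval (ev p g ψ) (minpoly ℚ_[p] (ev p g ν)) = 0 := fun g hg =>
    hE g hg _ (hpow ψ g hg) (hψ g hg)
  let H : Subgroup G := (powMonoidHom m : G →* G).ker
  have hH : ∀ g, g ∈ H ↔ g ^ m = 1 := fun g => Iff.rfl
  have hfin : Finite (H.map ν) := by
    have h : Set.Finite ((H.map ν : Subgroup ℂ_[p]ˣ) : Set ℂ_[p]ˣ) := by
      rw [Subgroup.coe_map]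
      exact (Set.toFinite _).image _
    exact h.to_subtype
  obtain ⟨⟨c, hc⟩, hgen⟩ := IsCyclic.exists_generator (α := H.map ν)
  obtain ⟨g0, hg0, rfl⟩ := hc
  have hg0' : g0 ^ m = 1 := hg0
  have hk : ∀ g, g ^ m = 1 → ∃ k : ℤ, ν g = (ν g0) ^ k := by
    intro g hg
    obtain ⟨k, hk⟩ := hgen ⟨ν g, g, hg, rfl⟩
    refine ⟨k, ?_⟩
    have := congrArg Subtype.val hk
    simpa using this.symm
  have halg : IsAlgebraic ℚ_[p] (ev p g0 ν) := by
    refine ⟨X ^ m - 1, (monic_X_pow_sub_C 1 hm0.ne').ne_zero, ?_⟩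
    rw [map_sub, map_pow, aeval_X, map_one, hpow ν g0 hg0', sub_self]
  obtain ⟨σ, hσ⟩ := ext_conj ℚ_[p] ℂ_[p] (ev p g0 ν) (ev p g0 ψ) halg (hkey g0 hg0')
  refine ⟨σ, fun g hg => ?_⟩
  obtain ⟨k, hk⟩ := hk g hg
  have h1 : (g * g0 ^ (-k)) ^ m = 1 := by
    rw [mul_pow, hg, one_mul, ← zpow_natCast, ← zpow_mul, mul_comm, zpow_mul, zpow_natCast, hg0',
      one_zpow]
  have h2 : ν (g * g0 ^ (-k)) = 1 := by
    rw [map_mul, map_zpow, hk, zpow_neg, mul_inv_cancel]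
  have h3 := hkey _ h1
  have h4 : ev p (g * g0 ^ (-k)) ν = 1 := by rw [ev, h2, Units.val_one]
  rw [h4, minpoly.one, map_sub, aeval_X, map_one, sub_eq_zero] at h3
  have h5 : ψ (g * g0 ^ (-k)) = 1 := Units.ext h3
  have h6 : ψ g = (ψ g0) ^ k := by
    rw [map_mul, map_zpow, zpow_neg, mul_inv_eq_one] at h5
    exact h5
  rw [ev, hk, Units.val_zpow_eq_zpow_val, map_zpow₀, ev, h6, Units.val_zpow_eq_zpow_val]
  congr 1

omit [Fintype G] in
/-- the value of a character at a generator of the `p`-part -/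
theorem prim (ψ : G →* ℂ_[p]ˣ) (γ τ : G) (s : ℕ) (hγ : orderOf γ = p ^ (s + 1)) (k : ℤ)
    (hk : τ = γ ^ k) (hτ : τ ^ p = 1) (hψ : ev p τ ψ ≠ 1) :
    IsPrimitiveRoot (ev p γ ψ) (p ^ (s + 1)) := by
  have hp : p.Prime := Fact.out
  have h1 : (ev p γ ψ) ^ p ^ (s + 1) = 1 := by
    rw [ev, ← Units.val_pow_eq_pow_val, ← map_pow, ← hγ, pow_orderOf_eq_one, map_one, Units.val_one]
  have h2 : ¬ (ev p γ ψ) ^ p ^ s = 1 := by
    intro h
    apply hψ
    have h3 : γ ^ (k * p) = 1 := by rw [zpow_mul, ← hk, zpow_natCast, hτ]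
    have h4 : ((p ^ (s + 1) : ℕ) : ℤ) ∣ k * p := by
      rw [← hγ]
      exact orderOf_dvd_iff_zpow_eq_one.2 h3
    have h5 : ((p ^ s : ℕ) : ℤ) ∣ k := by
      rw [pow_succ, Nat.cast_mul] at h4
      exact Int.dvd_of_mul_dvd_mul_right (by exact_mod_cast hp.ne_zero) h4
    obtain ⟨j, rfl⟩ := h5
    rw [ev, hk, map_zpow, zpow_mul, zpow_natCast]
    have h6 : (ψ γ) ^ p ^ s = 1 := by
      apply Units.ext
      rw [Units.val_pow_eq_pow_val, Units.val_one]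
      exact h
    rw [h6, one_zpow, Units.val_one]
  have h7 := orderOf_eq_prime_pow h2 h1
  rw [← h7]
  exact IsPrimitiveRoot.orderOf _

theorem prod_eq (hp2 : p ≠ 2) (ζ : ℂ_[p]) (hζ : IsPrimitiveRoot ζ p) :
    ((1 + ζ) * ∏ i ∈ Finset.Ico 3 p, (1 - ζ ^ i)) * (1 - ζ) ^ 2 = (p : ℂ_[p]) := by
  have hp : p.Prime := Fact.out
  have h3 : 3 ≤ p := by
    have := hp.two_le
    omega
  have h1 : IsPrimitiveRoot ζ ((p - 1) + 1) := by
    rwa [Nat.sub_add_cancel (by omega)]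
  have h2 := h1.prod_one_sub_pow_eq_order
  have h4 : ∏ k ∈ Finset.range (p - 1), (1 - ζ ^ (k + 1)) = ∏ i ∈ Finset.Ico 1 p, (1 - ζ ^ i) := by
    rw [Finset.prod_Ico_eq_prod_range]
    apply Finset.prod_congr rfl
    intro k _
    rw [add_comm]
  rw [h4, Finset.prod_eq_prod_Ico_succ_bot (by omega), Finset.prod_eq_prod_Ico_succ_bot (by omega)]
    at h2
  have h5 : ((p - 1 : ℕ) : ℂ_[p]) + 1 = (p : ℂ_[p]) := by
    rw [← Nat.cast_succ, Nat.succ_eq_add_one, Nat.sub_add_cancel (by omega)]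
  rw [h5] at h2
  rw [← h2]
  ring

theorem main (hC : B_CNJ) (hp2 : p ≠ 2) (ν : G →* ℂ_[p]ˣ)
    (hν : ∀ g : G, (∃ s : ℕ, g ^ p ^ s = 1) → ν g = 1 → g = 1) :
    ∃ e f : G → ℤ_[p],
    (∀ ψ : G →* ℂ_[p]ˣ, (¬ ∃ σ : ℂ_[p] ≃ₐ[ℚ_[p]] ℂ_[p], ∀ g,
      ((ψ g : ℂ_[p]ˣ) : ℂ_[p]) = σ (ν g : ℂ_[p]ˣ)) → ∑ g, zp p (e g) * (ψ g : ℂ_[p]ˣ) = 0) ∧
    (∑ g, zp p (f g) * (ν g : ℂ_[p]ˣ)) * (∑ g, zp p (e g) * (ν g : ℂ_[p]ˣ)) ^ 2 = (p : ℂ_[p]) := by
  classical
  have hp : p.Prime := Fact.out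
  obtain ⟨a, m, hm, hN⟩ := Nat.exists_eq_pow_mul_and_not_dvd (Fintype.card_ne_zero (α := G)) p
    hp.ne_one
  have hm0 : 0 < m := Nat.pos_of_ne_zero fun h => hm (h ▸ dvd_zero p)
  have hcop : p.Coprime m := (Nat.Prime.coprime_iff_not_dvd hp).2 hm
  have hG : ∀ g : G, g ^ (p ^ a * m) = 1 := fun g => by rw [← hN]; exact pow_card_eq_one
  have hu : IsUnit (m : ℤ_[p]) := by
    rw [PadicInt.isUnit_iff, PadicInt.norm_natCast_eq_one_iff]
    exact hcop
  have hpow : ∀ (φ : G →* ℂ_[p]ˣ) (g : G), g ^ m = 1 → (ev p g φ) ^ m = 1 := by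
    intro φ g hg
    rw [ev, ← Units.val_pow_eq_pow_val, ← map_pow, hg, map_one, Units.val_one]
  have hEx : ∀ g : G, ∃ E : ℤ_[p][X], g ^ m = 1 → (eval₂ (zp p) (ev p g ν) E = 1 ∧
      ∀ z : ℂ_[p], z ^ m = 1 → eval₂ (zp p) z E ≠ 0 →
        aeval z (minpoly ℚ_[p] (ev p g ν)) = 0) := by
    intro g
    by_cases hg : g ^ m = 1
    · obtain ⟨E, h1, h2⟩ := idem ℤ_[p] ℚ_[p] ℂ_[p] (zp p) rfl m hm0 hu (ev p g ν) (hpow ν g hg)
      exact ⟨E, fun _ => ⟨h1, h2⟩⟩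
    · exact ⟨0, fun h => absurd h hg⟩
  choose E hE using hEx
  let Φ0 : (G →* ℂ_[p]ˣ) → ℂ_[p] :=
    ∏ g ∈ Finset.univ.filter (fun g : G => g ^ m = 1), fun ψ => eval₂ (zp p) (ev p g ψ) (E g)
  have hΦ0 : Φ0 ∈ RS p G := Subring.prod_mem _ fun g _ => poly_mem g (E g)
  have hΦa : ∀ ψ, Φ0 ψ = ∏ g ∈ Finset.univ.filter (fun g : G => g ^ m = 1),
      eval₂ (zp p) (ev p g ψ) (E g) := fun ψ => Finset.prod_apply _ _ _
  have hΦν : Φ0 ν = 1 := by
    rw [hΦa]
    exact Finset.prod_eq_one fun g hg => (hE g (Finset.mem_filter.1 hg).2).1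
  have hΦψ : ∀ ψ, Φ0 ψ ≠ 0 →
      ∃ σ : ℂ_[p] ≃ₐ[ℚ_[p]] ℂ_[p], ∀ g, g ^ m = 1 → σ (ev p g ν) = ev p g ψ := by
    intro ψ hψ
    apply sig0 ν m hm0 E (fun g hg => (hE g hg).2) ψ
    intro g hg h
    apply hψ
    rw [hΦa]
    exact Finset.prod_eq_zero (Finset.mem_filter.2 ⟨Finset.mem_univ g, hg⟩) h
  rcases Nat.eq_zero_or_pos a with ha | ha
  · subst ha
    obtain ⟨e, he⟩ := hΦ0
    obtain ⟨f, hf⟩ := const_mem (G := G) (p : ℤ_[p])
    refine ⟨e, f, fun ψ hψ => ?_, ?_⟩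
    · rw [← he ψ]
      by_contra h
      obtain ⟨σ, hσ⟩ := hΦψ ψ h
      refine hψ ⟨σ, fun g => (hσ g ?_).symm⟩
      have := hG g
      rwa [pow_zero, one_mul] at this
    · rw [← he ν, ← hf ν, hΦν, map_natCast]
      ring
  · have hdvd : p ∣ Fintype.card G := by
      rw [hN]
      exact Dvd.dvd.mul_right (dvd_pow_self p ha.ne') m
    obtain ⟨τ, hτ⟩ := exists_prime_orderOf_dvd_card p hdvd
    have hτp : τ ^ p = 1 := by rw [← hτ]; exact pow_orderOf_eq_one τ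
    have hτ1 : τ ≠ 1 := by
      rintro rfl
      rw [orderOf_one] at hτ
      exact hp.ne_one hτ.symm
    let P : Subgroup G := (powMonoidHom (p ^ a) : G →* G).ker
    have hP : ∀ g, g ∈ P ↔ g ^ p ^ a = 1 := fun g => Iff.rfl
    have hτP : τ ∈ P := by
      rw [hP]
      obtain ⟨b, rfl⟩ : ∃ b, a = b + 1 := ⟨a - 1, by omega⟩
      rw [pow_succ', pow_mul, hτp, one_pow]
    have hcyc : IsCyclic P := by
      apply isCyclic_of_injective_ringHom (((Units.coeHom ℂ_[p]).comp ν).comp P.subtype)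
      intro x y hxy
      have h1 : ν (x : G) = ν (y : G) := Units.ext hxy
      have h2 : (x : G) * (y : G)⁻¹ = 1 := by
        apply hν
        · refine ⟨a, ?_⟩
          rw [mul_pow, inv_pow, (hP _).1 x.2, (hP _).1 y.2, inv_one, mul_one]
        · rw [map_mul, map_inv, h1, mul_inv_cancel]
      exact Subtype.ext (mul_inv_eq_one.1 h2)
    obtain ⟨⟨γ, hγP⟩, hgen⟩ := IsCyclic.exists_generator (α := P)
    have hk : ∀ g, g ∈ P → ∃ k : ℤ, g = γ ^ k := by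
      intro g hg
      obtain ⟨k, hk⟩ := hgen ⟨g, hg⟩
      refine ⟨k, ?_⟩
      have := congrArg Subtype.val hk
      simpa using this.symm
    obtain ⟨k, hkτ⟩ := hk τ hτP
    obtain ⟨s, hs⟩ : ∃ s, orderOf γ = p ^ (s + 1) := by
      obtain ⟨s, -, hs⟩ := (Nat.dvd_prime_pow hp).1 (orderOf_dvd_of_pow_eq_one ((hP γ).1 hγP))
      rcases Nat.eq_zero_or_pos s with h0 | h0
      · exfalso
        rw [h0, pow_zero, orderOf_eq_one_iff] at hs
        rw [hs, one_zpow] at hkτ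
        exact hτ1 hkτ
      · exact ⟨s - 1, by rw [hs, Nat.sub_add_cancel h0]⟩
    have hντ : ev p τ ν ≠ 1 := by
      intro h
      exact hτ1 (hν τ ⟨1, by rwa [pow_one]⟩ (Units.ext h))
    have hζ : IsPrimitiveRoot (ev p τ ν) p := by
      have h1 : (ev p τ ν) ^ p = 1 := by
        rw [ev, ← Units.val_pow_eq_pow_val, ← map_pow, hτp, map_one, Units.val_one]
      have h2 := orderOf_eq_prime h1 hντ
      have h3 := IsPrimitiveRoot.orderOf (ev p τ ν)
      rwa [h2] at h3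
    have he : Φ0 * (1 - ev p τ) ∈ RS p G :=
      Subring.mul_mem _ hΦ0 (Subring.sub_mem _ (Subring.one_mem _) (ev_mem τ))
    have hf : (1 + ev p τ) * ∏ i ∈ Finset.Ico 3 p, (1 - (ev p τ) ^ i) ∈ RS p G :=
      Subring.mul_mem _ (Subring.add_mem _ (Subring.one_mem _) (ev_mem τ))
        (Subring.prod_mem _ fun i _ =>
          Subring.sub_mem _ (Subring.one_mem _) (Subring.pow_mem _ (ev_mem τ) i))
    obtain ⟨e, he⟩ := he
    obtain ⟨f, hf⟩ := hf
    refine ⟨e, f, fun ψ hψ => ?_, ?_⟩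
    · rw [← he ψ]
      by_contra h
      rw [Pi.mul_apply] at h
      obtain ⟨σ0, hσ0⟩ := hΦψ ψ (left_ne_zero_of_mul h)
      have hψτ : ev p τ ψ ≠ 1 := by
        intro h1
        apply right_ne_zero_of_mul h
        rw [Pi.sub_apply, h1, Pi.one_apply, sub_self]
      have h1 := prim ψ γ τ s hs k hkτ hτp hψτ
      have h2 := prim ν γ τ s hs k hkτ hτp hντ
      have h3 : IsPrimitiveRoot (σ0 (ev p γ ν)) (p ^ (s + 1)) := h2.map_of_injective σ0.injective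
      have hn1 : NeZero m := ⟨hm0.ne'⟩
      have hn2 : NeZero (m : ℂ_[p]) := ⟨by exact_mod_cast hm0.ne'⟩
      obtain ⟨ζ, hζm⟩ := HasEnoughRootsOfUnity.exists_primitiveRoot ℂ_[p] m
      obtain ⟨σ1, hσ1, hσ1'⟩ := hC p m (s + 1) hm0 hcop.symm ζ (σ0 (ev p γ ν)) (ev p γ ψ)
        hζm.pow_eq_one h3 h1
      refine hψ ⟨σ0.trans σ1, fun g => ?_⟩
      have hbez : IsCoprime ((p ^ a : ℕ) : ℤ) ((m : ℕ) : ℤ) := by
        rw [Nat.isCoprime_iff_coprime]
        exact Nat.Coprime.pow_left a hcop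
      obtain ⟨u, v, huv⟩ := hbez
      have hg : g = g ^ (u * (p ^ a : ℕ)) * g ^ (v * (m : ℕ)) := by
        rw [← zpow_add, huv, zpow_one]
      have hg1 : (g ^ (u * ((p ^ a : ℕ) : ℤ))) ^ m = 1 := by
        rw [← zpow_natCast, ← zpow_mul, mul_assoc, ← Nat.cast_mul, mul_comm, zpow_mul, zpow_natCast,
          hG, one_zpow]
      have hg2 : (g ^ (v * ((m : ℕ) : ℤ))) ∈ P := by
        rw [hP, ← zpow_natCast, ← zpow_mul, mul_assoc, ← Nat.cast_mul, mul_comm m, mul_comm v,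
          zpow_mul, zpow_natCast, hG, one_zpow]
      obtain ⟨j, hj⟩ := hk _ hg2
      have e1 : (σ0.trans σ1) (ev p (g ^ (u * ((p ^ a : ℕ) : ℤ))) ν) =
          ev p (g ^ (u * ((p ^ a : ℕ) : ℤ))) ψ := by
        rw [AlgEquiv.trans_apply, hσ0 _ hg1]
        obtain ⟨i, -, hi⟩ := hζm.eq_pow_of_pow_eq_one (hpow ψ _ hg1)
        rw [← hi, map_pow, hσ1]
      have e2 : (σ0.trans σ1) (ev p (g ^ (v * ((m : ℕ) : ℤ))) ν) =
          ev p (g ^ (v * ((m : ℕ) : ℤ))) ψ := by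
        rw [AlgEquiv.trans_apply, hj]
        have e3 : ∀ φ : G →* ℂ_[p]ˣ, ev p (γ ^ j) φ = (ev p γ φ) ^ j := by
          intro φ
          rw [ev, map_zpow, Units.val_zpow_eq_zpow_val]
          rfl
        rw [e3, e3, map_zpow₀, map_zpow₀, hσ1']
      have e4 : ∀ φ : G →* ℂ_[p]ˣ, ((φ g : ℂ_[p]ˣ) : ℂ_[p]) =
          ev p (g ^ (u * ((p ^ a : ℕ) : ℤ))) φ * ev p (g ^ (v * ((m : ℕ) : ℤ))) φ := by
        intro φ
        conv_lhs => rw [hg]
        rw [map_mul, Units.val_mul]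
        rfl
      rw [e4 ψ, e4 ν, map_mul, e1, e2]
    · rw [← he ν, ← hf ν]
      simp only [Pi.mul_apply, hΦν, one_mul, Pi.sub_apply, Pi.add_apply, Finset.prod_apply,
        Pi.one_apply, Pi.pow_apply]
      exact prod_eq hp2 _ hζ

end

theorem t (hC : B_CNJ) : B_EPS := by
  intro p _ hp2 G _ _ hcomm ν hν
  exact @main p _ G { ‹Group G› with mul_comm := hcomm } _ hC hp2 ν hν

end Pool.Agent.Helper76.SD.B_EPS
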